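import Pool.Agent.H43.TC.FIN2
import Pool.Agent.H43.TC.COR
import Pool.Agent.H80.TC.PF2
import Pool.Agent.H49.TE.PFK

/-!
# Staying probabilities in two-coloured tori: the edge at the corner `(1, 1)` (MP_183c3b_co)
-/

set_option autoImplicit false

namespace Pool.Agent.Results.MP_183c3b_co.CornerEdge

open Pool.Agent.H43.TC

/-- For all `k, t ≥ 2` the region lies in the half plane `1 - y ≤ (rng k t - 1) (1 - x)` and meets
its boundary line exactly in a segment with end points `(1, 1)` and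
`(1 - u, 1 - (rng k t - 1) u)`, where `u ≥ 1 / ((t + 1) ^ k - 1)`, and `u` is known exactly for
`k = 2` and for `t ≤ 3`. -/
theorem result (k t : ℕ) (hk : 2 ≤ k) (ht : 2 ≤ t) :
    (∀ p ∈ region k t, 1 - p.2 ≤ (rng k t - 1) * (1 - p.1)) ∧
    ∃ u : ℝ, 1 / ((t + 1 : ℝ) ^ k - 1) ≤ u ∧
      (k = 2 → u = 1 / ((t * (t + 2) / 2 : ℕ) : ℝ)) ∧
      (t = 2 → u = 1 / (2 * k : ℝ)) ∧
      (t = 3 → u = 1 / (4 * k - 1 : ℝ)) ∧
      {p | p ∈ region k t ∧ 1 - p.2 = (rng k t - 1) * (1 - p.1)} =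
        segment ℝ ((1 - u : ℝ), (1 - (rng k t - 1) * u : ℝ)) (1, 1) :=
  cor cr1' cr2' att' Pool.Agent.H71.TE.one Pool.Agent.H42.TE.box cls' cvx'
    Pool.Agent.H80.TC.pf2 Pool.Agent.H49.TE.pfk Pool.Agent.H49.TE.pf3 k t hk ht

end Pool.Agent.Results.MP_183c3b_co.CornerEdge
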