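import Pool.Agent.H4.TA.All

/-!
# Staying probabilities in two-coloured tori: the whole region for long walks (MP_183c3b_co)

Let `k ≥ 2`. As `t → ∞` the achievable region `A_{k,t}` is
`{(x, y) ∈ [0, 1]² : f(x) ≤ y, f(y) ≤ x}` with `f(x) = exp (-a_t (1 - x)) + o(1)`, uniformly in
`x ∈ [0, 1]`, where `a_t = π t / log t` for `k = 2` and `a_t = γ t` for `k ≥ 3`, `γ > 0` being the
probability that the simple random walk on `ℤ^k` never returns to its starting point.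

The file is the joint work of the writers of the board `tas_modules`.
-/

set_option autoImplicit false

open Filter Topology

namespace Pool.Agent.Results.MP_183c3b_co.LongWalks

open Pool.Agent.H43.TC

theorem result (k : ℕ) (hk : 2 ≤ k) : ∃ a : ℕ → ℝ,
    (k = 2 → ∀ t : ℕ, a t = Real.pi * t / Real.log t) ∧
    (3 ≤ k → ∃ γ : ℝ, 0 < γ ∧
      Tendsto (fun s : ℕ => (avoid k s : ℝ) / (2 * k : ℝ) ^ s) atTop (𝓝 γ) ∧
      ∀ t : ℕ, a t = γ * t) ∧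
    ∀ ε : ℝ, 0 < ε → ∃ t₀ : ℕ, ∀ t : ℕ, t₀ ≤ t → ∃ f : ℝ → ℝ,
      region k t =
        {p : ℝ × ℝ | (0 ≤ p.1 ∧ p.1 ≤ 1) ∧ (0 ≤ p.2 ∧ p.2 ≤ 1) ∧ f p.1 ≤ p.2 ∧ f p.2 ≤ p.1} ∧
      ∀ x : ℝ, 0 ≤ x → x ≤ 1 → |f x - Real.exp (-(a t * (1 - x)))| ≤ ε :=
  Pool.Agent.H4.TA.All.a_FN2 k hk

end Pool.Agent.Results.MP_183c3b_co.LongWalks
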