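import Pool.Agent.H43.TC.FIN2
import Pool.Agent.H43.TC.CE5
import Pool.Agent.H43.TC.MA4
import Pool.Agent.H67.TE.WN4
import Pool.Agent.H67.TE.CNV
import Pool.Agent.H67.TE.OU4
import Pool.Agent.H69.TE.VX4
import Pool.Agent.H69.TE.PL4

/-!
# Staying probabilities in two-coloured tori: the plane, four steps (MP_183c3b_co)
-/

set_option autoImplicit false

namespace Pool.Agent.Results.MP_183c3b_co.PlaneFourSteps

open Pool.Agent.H43.TC

/-- The achievable region for `k = 2`, `t = 4`. -/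
theorem result : region 2 4 = convexHull ℝ
    ({(0, 0), (5 / 32, 3 / 208), (129 / 512, 13 / 512), (1 / 2, 1 / 16), (3 / 5, 23 / 160),
        (2 / 3, 41 / 192), (3 / 4, 81 / 256), (4 / 5, 17 / 40), (6 / 7, 9 / 16),
        (8 / 9, 47 / 72), (10 / 11, 1003 / 1408), (11 / 12, 565 / 768), (1, 1)} ∪
      {(3 / 208, 5 / 32), (13 / 512, 129 / 512), (1 / 16, 1 / 2), (23 / 160, 3 / 5),
        (41 / 192, 2 / 3), (81 / 256, 3 / 4), (17 / 40, 4 / 5), (9 / 16, 6 / 7),
        (47 / 72, 8 / 9), (1003 / 1408, 10 / 11), (565 / 768, 11 / 12)} : Set (ℝ × ℝ)) := by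
  have hm : T_MA4 := ma4 sym' cvx'
    (Pool.Agent.H67.TE.ou4 (ce5 (Pool.Agent.H67.TE.wn4 Pool.Agent.H67.TE.cnv)) cr1'
      Pool.Agent.H42.TE.box)
    Pool.Agent.H69.TE.vx4 Pool.Agent.H69.TE.pl4
  rw [hm]
  congr 1
  ext p
  simp only [verts4, Set.mem_union, Set.mem_image, Set.mem_insert_iff, Set.mem_singleton_iff]
  constructor
  · rintro (h | ⟨q, h, rfl⟩)
    · exact Or.inl h
    · rcases h with rfl | rfl | rfl | rfl | rfl | rfl | rfl | rfl | rfl | rfl | rfl | rfl | rfl <;>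
        simp [Prod.swap]
  · rintro (h | h)
    · exact Or.inl h
    · refine Or.inr ⟨p.swap, ?_, Prod.swap_swap p⟩
      rcases h with rfl | rfl | rfl | rfl | rfl | rfl | rfl | rfl | rfl | rfl | rfl <;>
        simp [Prod.swap]

end Pool.Agent.Results.MP_183c3b_co.PlaneFourSteps
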