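import Pool.Agent.H43.TC.FIN
import Pool.Agent.H43.TC.CER
import Pool.Agent.H43.TC.MAIN
import Pool.Agent.H74.TC.WIN
import Pool.Agent.H60.TC.SUM
import Pool.Agent.H13.TC.OUT
import Pool.Agent.H54.TC.POL
import Pool.Agent.H47.TC.VTX

/-!
# Staying probabilities in two-coloured tori: the plane, three steps (MP_183c3b_co)
-/

set_option autoImplicit false

namespace Pool.Agent.Results.MP_183c3b_co.PlaneThreeSteps

open Pool.Agent.H43.TC

/-- The achievable region for `k = 2`, `t = 3`. -/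
theorem result : region 2 3 = convexHull ℝ
    ({(0, 0), (17 / 104, 1 / 26), (33 / 128, 1 / 16), (1 / 2, 1 / 8), (3 / 5, 37 / 160),
        (2 / 3, 5 / 16), (3 / 4, 27 / 64), (6 / 7, 9 / 14), (1, 1)} ∪
      {(1 / 26, 17 / 104), (1 / 16, 33 / 128), (1 / 8, 1 / 2), (37 / 160, 3 / 5),
        (5 / 16, 2 / 3), (27 / 64, 3 / 4), (9 / 14, 6 / 7)} : Set (ℝ × ℝ)) := by
  have hm : T_MAIN := main sym' cvx'
    (Pool.Agent.H13.TC.out (cer (win Pool.Agent.H60.TC.sum3)) Pool.Agent.H31.TC.reg inq')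
    (Pool.Agent.H47.TC.vtx lin') Pool.Agent.H54.TC.pol
  rw [hm]
  congr 1
  ext p
  simp only [verts, Set.mem_union, Set.mem_image, Set.mem_insert_iff, Set.mem_singleton_iff]
  constructor
  · rintro (h | ⟨q, h, rfl⟩)
    · exact Or.inl h
    · rcases h with rfl | rfl | rfl | rfl | rfl | rfl | rfl | rfl | rfl <;> simp [Prod.swap]
  · rintro (h | h)
    · exact Or.inl h
    · refine Or.inr ⟨p.swap, ?_, Prod.swap_swap p⟩
      rcases h with rfl | rfl | rfl | rfl | rfl | rfl | rfl <;> simp [Prod.swap]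

end Pool.Agent.Results.MP_183c3b_co.PlaneThreeSteps
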